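import Mathlib

set_option autoImplicit false

open Filter Topology

namespace Pool.Agent.Results.MP_d594f7_lc.CesaroRamsey

/-- The space of infinite subsets of `ℕ`, as a subspace of the Cantor space `ℕ → Bool`
(characteristic functions, subspace of the product topology). -/
abbrev InfSet : Type := {x : ℕ → Bool // {i | x i = true}.Infinite}

/-- The subset of `ℕ` whose characteristic function is `x`. -/
def InfSet.toSet (x : InfSet) : Set ℕ := {i | x.1 i = true}

/-- The basic set `[s, A]`: all infinite `x` with `s ⊆ x ⊆ s ∪ A` and `x ∩ (max s + 1) = s`. -/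
def ellentuck (s : Finset ℕ) (A : Set ℕ) : Set InfSet :=
  {x | (s : Set ℕ) ⊆ x.toSet ∧ x.toSet ⊆ (s : Set ℕ) ∪ A ∧
    ∀ a ∈ x.toSet, ∀ b ∈ s, a ≤ b → a ∈ s}

/-- `N` is Ramsey null: for every finite `s` and infinite `A` with `max s < min A` there is an
infinite `B ⊆ A` with `[s, B] ∩ N = ∅`. -/
def RamseyNull (N : Set InfSet) : Prop :=
  ∀ (s : Finset ℕ) (A : Set ℕ), A.Infinite → (∀ a ∈ s, ∀ b ∈ A, a < b) →
    ∃ B : Set ℕ, B ⊆ A ∧ B.Infinite ∧ ellentuck s B ∩ N = ∅

/-- The Cesaro average `(1 / n) * ∑_{i < n} g i x`. -/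
noncomputable def cesaro (g : ℕ → InfSet → ℝ) (n : ℕ) (x : InfSet) : ℝ :=
  (1 / (n : ℝ)) * ∑ i ∈ Finset.range n, g i x

/-- Number of elements of `x` below `n`. -/
def cnt (x : InfSet) (n : ℕ) : ℕ := ((Finset.range n).filter (fun i => x.1 i = true)).card

/-- The parity of the number of elements of `x` below `n`. -/
noncomputable def par (n : ℕ) (x : InfSet) : ℝ := if Odd (cnt x n) then 1 else 0

lemma par_mem (n : ℕ) (x : InfSet) : par n x ∈ Set.Icc (0 : ℝ) 1 := by
  unfold par; split_ifs <;> simp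

lemma par_continuous (n : ℕ) : Continuous (par n) := by
  have h1 : Continuous (fun x : InfSet => fun i : Fin n => x.1 i) :=
    continuous_pi fun i => (continuous_apply (i : ℕ)).comp continuous_subtype_val
  let g : (Fin n → Bool) → ℝ := fun y =>
    if Odd ((Finset.range n).filter (fun i => (if h : i < n then y ⟨i, h⟩ else false) = true)).card
      then 1 else 0
  have h2 : Continuous g := continuous_of_discreteTopology
  have h3 : par n = g ∘ (fun x : InfSet => fun i : Fin n => x.1 i) := by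
    funext x
    have : (Finset.range n).filter (fun i => x.1 i = true) =
        (Finset.range n).filter (fun i => (if h : i < n then x.1 i else false) = true) := by
      apply Finset.filter_congr
      intro i hi
      rw [Finset.mem_range] at hi
      simp [hi]
    simp only [par, cnt, g, Function.comp, this]
  rw [h3]
  exact h2.comp h1

lemma exists_sparse (g : ℕ → ℕ) (A : Set ℕ) (hA : A.Infinite) :
    ∃ B : Set ℕ, B ⊆ A ∧ B.Infinite ∧ ∀ b ∈ B, ∀ c ∈ B, b < c → g b ≤ c := by
  have h : ∀ t : ℕ, ∃ a ∈ A, t < a := fun t => hA.exists_gt t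
  choose h hA' hlt using h
  let u : ℕ → ℕ := fun i => Nat.rec (h 0) (fun _ v => h (max (g v) v)) i
  have hu : ∀ i, u (i + 1) = h (max (g (u i)) (u i)) := fun i => rfl
  have hmono : StrictMono u := strictMono_nat_of_lt_succ fun i => by
    rw [hu]; exact lt_of_le_of_lt (le_max_right _ _) (hlt _)
  refine ⟨Set.range u, ?_, Set.infinite_range_of_injective hmono.injective, ?_⟩
  · rintro _ ⟨i, rfl⟩
    cases i with
    | zero => exact hA' 0
    | succ i => rw [hu]; exact hA' _
  · rintro _ ⟨i, rfl⟩ _ ⟨j, rfl⟩ hij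
    have h1 : i + 1 ≤ j := hmono.lt_iff_lt.mp hij
    have h2 : g (u i) ≤ u (i + 1) := by
      rw [hu]; exact le_of_lt (lt_of_le_of_lt (le_max_left _ _) (hlt _))
    exact h2.trans (hmono.monotone h1)

lemma cnt_succ (x : InfSet) (n : ℕ) :
    cnt x (n + 1) = cnt x n + if x.1 n = true then 1 else 0 := by
  unfold cnt
  rw [Finset.range_add_one, Finset.filter_insert]
  split_ifs with h
  · rw [Finset.card_insert_of_notMem]; simp
  · rfl

lemma cnt_const (x : InfSet) (a b : ℕ) (hab : a ≤ b) (h : ∀ i, a ≤ i → i < b → x.1 i ≠ true) :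
    cnt x b = cnt x a := by
  induction b, hab using Nat.le_induction with
  | base => rfl
  | succ b hab ih =>
    rw [cnt_succ, ih (fun i h1 h2 => h i h1 (by omega)), if_neg (h b hab (by omega))]
    rfl

/-- If `g i` equals `c` for all `y < i < N`, where `N ≥ 4 (y + 1)`, then the average of `g` is
within `1/4` of `c`. -/
lemma avg_close (g : ℕ → ℝ) (hg : ∀ i, g i ∈ Set.Icc (0 : ℝ) 1) (c : ℝ)
    (hc : c ∈ Set.Icc (0 : ℝ) 1) (y N : ℕ) (hN : 4 * (y + 1) ≤ N)
    (h : ∀ i, y < i → i < N → g i = c) :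
    |(1 / (N : ℝ)) * ∑ i ∈ Finset.range N, g i - c| ≤ 1 / 4 := by
  have hNpos : (0 : ℝ) < N := by
    have : 0 < N := by omega
    exact_mod_cast this
  have h1 : (1 / (N : ℝ)) * ∑ i ∈ Finset.range N, g i - c =
      (1 / (N : ℝ)) * ∑ i ∈ Finset.range N, (g i - c) := by
    rw [Finset.sum_sub_distrib, Finset.sum_const, Finset.card_range, nsmul_eq_mul]
    field_simp
  have h2 : ∑ i ∈ Finset.range N, (g i - c) = ∑ i ∈ Finset.range (y + 1), (g i - c) := by
    symm
    apply Finset.sum_subset
    · intro i hi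
      rw [Finset.mem_range] at hi ⊢
      omega
    · intro i hi hi'
      rw [Finset.mem_range] at hi hi'
      rw [h i (by omega) hi, sub_self]
  have h3 : |∑ i ∈ Finset.range (y + 1), (g i - c)| ≤ (y + 1 : ℝ) := by
    refine (Finset.abs_sum_le_sum_abs _ _).trans ?_
    have : ∀ i ∈ Finset.range (y + 1), |g i - c| ≤ (1 : ℝ) := by
      intro i _
      have h1 := hg i
      rw [Set.mem_Icc] at h1 hc
      rw [abs_le]; constructor <;> linarith [h1.1, h1.2, hc.1, hc.2]
    refine (Finset.sum_le_sum this).trans ?_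
    simp
  rw [h1, h2, abs_mul, abs_of_pos (by positivity : (0 : ℝ) < 1 / (N : ℝ))]
  have h4 : (4 * (y + 1) : ℝ) ≤ N := by exact_mod_cast hN
  rw [div_mul_eq_mul_div, one_mul, div_le_iff₀ hNpos]
  linarith

lemma conv_null (m n : ℕ → ℕ) (hm : StrictMono m) (hn : StrictMono n) :
    RamseyNull {x | ∃ l : ℝ,
      Tendsto (fun k => cesaro (fun i => par (m i)) (n k) x) atTop (𝓝 l)} := by
  intro s A hA hsA
  obtain ⟨B, hBA, hB, hsp⟩ := exists_sparse (fun b => m (n (4 * (b + 1)))) A hA
  refine ⟨B, hBA, hB, ?_⟩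
  rw [Set.eq_empty_iff_forall_notMem]
  rintro x ⟨⟨-, hx2, -⟩, l, hl⟩
  -- elements of `x` beyond `s` lie in `B`
  have hxB : ∀ y, x.1 y = true → s.sup id < y → y ∈ B := by
    intro y hy hys
    rcases hx2 hy with h | h
    · exact absurd (Finset.le_sup (f := id) h) (by simpa using hys)
    · exact h
  -- the key estimate
  have key : ∀ y, x.1 y = true → s.sup id < y →
      |cesaro (fun i => par (m i)) (n (4 * (y + 1))) x - par (y + 1) x| ≤ 1 / 4 := by
    intro y hy hys
    unfold cesaro
    refine avg_close (fun i => par (m i) x) (fun i => par_mem _ _) _ (par_mem _ _) y _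
      (hn.le_apply) ?_
    intro i h1 h2
    have h3 : y + 1 ≤ m i := le_trans h1 hm.le_apply
    have h4 : cnt x (m i) = cnt x (y + 1) := by
      apply cnt_const x _ _ h3
      intro j hj1 hj2 hj
      have h5 := hsp y (hxB y hy hys) j (hxB j hj (by omega)) (by omega)
      have h6 := hm h2
      omega
    simp only [par, h4]
  rw [Metric.tendsto_atTop] at hl
  obtain ⟨K, hK⟩ := hl (1 / 4) (by norm_num)
  obtain ⟨y, hy, hyK⟩ := x.2.exists_gt (max K (s.sup id))
  have hy' : x.1 y = true := hy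
  have hex : ∃ z, y < z ∧ x.1 z = true := by
    obtain ⟨z, hz, hyz⟩ := x.2.exists_gt y
    exact ⟨z, hyz, hz⟩
  have hz := Nat.find_spec hex
  have hzmin := fun j => Nat.find_min hex (m := j)
  set z := Nat.find hex
  have hcz : cnt x (z + 1) = cnt x (y + 1) + 1 := by
    rw [cnt_succ, if_pos hz.2, cnt_const x (y + 1) z hz.1]
    intro j h1 h2 h3
    exact hzmin j h2 ⟨h1, h3⟩
  have hK1 : K < y := lt_of_le_of_lt (le_max_left _ _) hyK
  have hs1 : s.sup id < y := lt_of_le_of_lt (le_max_right _ _) hyK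
  have k1 := key y hy' hs1
  have k2 := key z hz.2 (hs1.trans hz.1)
  have k3 := hK (4 * (y + 1)) (by omega)
  have k4 := hK (4 * (z + 1)) (by have := hz.1; omega)
  rw [Real.dist_eq, abs_lt] at k3 k4
  rw [abs_le] at k1 k2
  by_cases hodd : Odd (cnt x (y + 1))
  · have h1 : par (y + 1) x = 1 := by simp [par, hodd]
    have h2 : par (z + 1) x = 0 := by
      have : ¬ Odd (cnt x (z + 1)) := by
        rw [hcz, Nat.odd_add_one, not_not]; exact hodd
      simp [par, this]
    linarith [k1.1, k1.2, k2.1, k2.2, k3.1, k3.2, k4.1, k4.2]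
  · have h1 : par (y + 1) x = 0 := by simp [par, hodd]
    have h2 : par (z + 1) x = 1 := by
      have : Odd (cnt x (z + 1)) := by
        rw [hcz, Nat.odd_add_one]; exact hodd
      simp [par, this]
    linarith [k1.1, k1.2, k2.1, k2.2, k3.1, k3.2, k4.1, k4.2]

lemma not_null_compl (C : Set InfSet) (hC : RamseyNull C) : ¬ RamseyNull Cᶜ := by
  classical
  intro hD
  obtain ⟨B, -, hB, h1⟩ := hC ∅ Set.univ Set.infinite_univ (by simp)
  obtain ⟨B', hB'B, hB', h2⟩ := hD ∅ B hB (by simp)
  let x : InfSet := ⟨fun i => decide (i ∈ B'), by simpa using hB'⟩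
  have hx : x.toSet = B' := by
    ext i; simp [InfSet.toSet, x]
  have hx1 : x ∈ ellentuck ∅ B := by
    refine ⟨by simp, ?_, by simp⟩
    rw [hx]; simpa using hB'B
  have hx2 : x ∈ ellentuck ∅ B' := by
    refine ⟨by simp, ?_, by simp⟩
    rw [hx]; simp
  rw [Set.eq_empty_iff_forall_notMem] at h1 h2
  by_cases hxC : x ∈ C
  · exact h1 x ⟨hx1, hxC⟩
  · exact h2 x ⟨hx2, hxC⟩

/-- There are continuous `f n : [ω]^ω → [0,1]` such that for every subsequence `f (m i)` of the
functions (in particular the whole sequence, `m = id`) and every subsequence `n k` of its Cesaro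
averages, the set of points of divergence is not Ramsey null; indeed the set of points of
convergence is Ramsey null. -/
theorem result :
    ∃ f : ℕ → InfSet → ℝ, (∀ n, Continuous (f n)) ∧ (∀ n x, f n x ∈ Set.Icc (0 : ℝ) 1) ∧
      ∀ m n : ℕ → ℕ, StrictMono m → StrictMono n →
        ¬ RamseyNull {x | ¬ ∃ l : ℝ,
            Tendsto (fun k => cesaro (fun i => f (m i)) (n k) x) atTop (𝓝 l)} ∧
        RamseyNull {x | ∃ l : ℝ,
            Tendsto (fun k => cesaro (fun i => f (m i)) (n k) x) atTop (𝓝 l)} :=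
  ⟨par, par_continuous, par_mem, fun m n hm hn =>
    ⟨not_null_compl _ (conv_null m n hm hn), conv_null m n hm hn⟩⟩

end Pool.Agent.Results.MP_d594f7_lc.CesaroRamsey
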