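import Mathlib

set_option autoImplicit false

open Filter Topology

namespace Pool.Agent.Results.MP_d594f7_lc.RamseyDichotomy

/-- The space of infinite subsets of `ℕ`, as a subspace of the Cantor space `ℕ → Bool`
(characteristic functions, subspace of the product topology). -/
abbrev InfSet : Type := {x : ℕ → Bool // {i | x i = true}.Infinite}

/-- The subset of `ℕ` whose characteristic function is `x`. -/
def InfSet.toSet (x : InfSet) : Set ℕ := {i | x.1 i = true}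

/-- The basic set `[s, A]`: all infinite `x` with `s ⊆ x ⊆ s ∪ A` and `x ∩ (max s + 1) = s`. -/
def ellentuck (s : Finset ℕ) (A : Set ℕ) : Set InfSet :=
  {x | (s : Set ℕ) ⊆ x.toSet ∧ x.toSet ⊆ (s : Set ℕ) ∪ A ∧
    ∀ a ∈ x.toSet, ∀ b ∈ s, a ≤ b → a ∈ s}

/-- `N` is Ramsey null: for every finite `s` and infinite `A` with `max s < min A` there is an
infinite `B ⊆ A` with `[s, B] ∩ N = ∅`. -/
def RamseyNull (N : Set InfSet) : Prop :=
  ∀ (s : Finset ℕ) (A : Set ℕ), A.Infinite → (∀ a ∈ s, ∀ b ∈ A, a < b) →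
    ∃ B : Set ℕ, B ⊆ A ∧ B.Infinite ∧ ellentuck s B ∩ N = ∅

/-- The Silverman-Toeplitz conditions on a real matrix `w`: absolutely summable rows with bounded
absolute row sums, row sums tending to `1`, and every column tending to `0`. -/
def Regular (w : ℕ → ℕ → ℝ) : Prop :=
  (∀ k, Summable fun i => |w k i|) ∧ (∃ C : ℝ, ∀ k, ∑' i, |w k i| ≤ C) ∧
    Tendsto (fun k => ∑' i, w k i) atTop (𝓝 1) ∧ ∀ i, Tendsto (fun k => w k i) atTop (𝓝 0)

/-- All infinite `x` with `t ⊆ x ⊆ t ∪ C`. -/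
def cone (t : Finset ℕ) (C : Set ℕ) : Set InfSet :=
  {x | (t : Set ℕ) ⊆ x.toSet ∧ x.toSet ⊆ (t : Set ℕ) ∪ C}

lemma cone_mono {t : Finset ℕ} {C D : Set ℕ} (h : D ⊆ C) : cone t D ⊆ cone t C :=
  fun _ hx => ⟨hx.1, hx.2.trans (Set.union_subset_union_right _ h)⟩

lemma inf_tail {C : Set ℕ} (hC : C.Infinite) (c : ℕ) : (C ∩ Set.Ioi c).Infinite := by
  have h : C \ Set.Iic c = C ∩ Set.Ioi c := by
    ext a; simp
  rw [← h]
  exact hC.sdiff (Set.finite_Iic c)

lemma inf_img {b : ℕ → ℕ} (hb : StrictMono b) (n : ℕ) : (b '' Set.Ici n).Infinite :=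
  (Set.Ici_infinite n).image hb.injective.injOn

lemma dense_fin (P : Finset ℕ → Set ℕ → Prop)
    (mono : ∀ t C D, D ⊆ C → P t C → P t D)
    (dense : ∀ t C, C.Infinite → ∃ D, D ⊆ C ∧ D.Infinite ∧ P t D)
    (F : Finset (Finset ℕ)) (C : Set ℕ) (hC : C.Infinite) :
    ∃ D, D ⊆ C ∧ D.Infinite ∧ ∀ t ∈ F, P t D := by
  induction F using Finset.induction_on with
  | empty => exact ⟨C, subset_rfl, hC, by simp⟩
  | insert t F _ ih =>
    obtain ⟨D, hD, hDi, h⟩ := ih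
    obtain ⟨E, hE, hEi, h2⟩ := dense t D hDi
    refine ⟨E, hE.trans hD, hEi, ?_⟩
    intro u hu
    rcases Finset.mem_insert.mp hu with rfl | hu
    · exact h2
    · exact mono _ _ _ hE (h u hu)

lemma fusion (P : ℕ → Finset ℕ → Set ℕ → Prop)
    (mono : ∀ n t C D, D ⊆ C → P n t C → P n t D)
    (dense : ∀ n t C, C.Infinite → ∃ D, D ⊆ C ∧ D.Infinite ∧ P n t D)
    (s : Finset ℕ) (A : Set ℕ) (hA : A.Infinite) :
    ∃ b : ℕ → ℕ, StrictMono b ∧ (∀ j, b j ∈ A) ∧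
      ∀ n t, t ⊆ s ∪ (Finset.range n).image b → P n t (b '' Set.Ici n) := by
  have h : ∀ (n : ℕ) (u : Finset ℕ) (C : {C : Set ℕ // C.Infinite}),
      ∃ D : Set ℕ, D ⊆ C.1 ∧ D.Infinite ∧ ∀ t ∈ u.powerset, P n t D :=
    fun n u C => dense_fin (P n) (mono n) (dense n) u.powerset C.1 C.2
  choose F hF1 hF2 hF3 using h
  have h2 : ∀ n u C, ∃ e, e ∈ F n u C := fun n u C => (hF2 n u C).nonempty
  choose e he using h2
  let σ : ℕ → Finset ℕ × {C : Set ℕ // C.Infinite} := fun n =>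
    Nat.rec (s, ⟨A, hA⟩) (fun n p => (insert (e n p.1 p.2) p.1,
      ⟨F n p.1 p.2 ∩ Set.Ioi (e n p.1 p.2), inf_tail (hF2 _ _ _) _⟩)) n
  let b : ℕ → ℕ := fun n => e n (σ n).1 (σ n).2
  let D : ℕ → Set ℕ := fun n => F n (σ n).1 (σ n).2
  have s1 : ∀ n, (σ (n + 1)).1 = insert (b n) (σ n).1 := fun n => rfl
  have s2 : ∀ n, (σ (n + 1)).2.1 = D n ∩ Set.Ioi (b n) := fun n => rfl
  have hbD : ∀ n, b n ∈ D n := fun n => he _ _ _
  have hD : ∀ n, D (n + 1) ⊆ D n ∩ Set.Ioi (b n) := fun n => by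
    rw [← s2]; exact hF1 _ _ _
  have hanti : Antitone D := antitone_nat_of_succ_le fun n => (hD n).trans Set.inter_subset_left
  have hmono : StrictMono b := strictMono_nat_of_lt_succ fun n => (hD n (hbD (n + 1))).2
  have hu : ∀ n, (σ n).1 = s ∪ (Finset.range n).image b := by
    intro n
    induction n with
    | zero => simp [σ]
    | succ n ih => rw [s1, ih, Finset.range_add_one, Finset.image_insert, Finset.union_insert]
  refine ⟨b, hmono, fun j => ?_, fun n t ht => ?_⟩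
  · exact hF1 0 (σ 0).1 (σ 0).2 (hanti (Nat.zero_le j) (hbD j))
  · refine mono n t (D n) _ ?_ (hF3 n _ _ t ?_)
    · rintro _ ⟨j, hj, rfl⟩
      exact hanti hj (hbD j)
    · rw [hu]; exact Finset.mem_powerset.mpr ht

/-- No infinite subset of `C` has its cone over `t` inside `S`. -/
def rej (S : Set InfSet) (t : Finset ℕ) (C : Set ℕ) : Prop :=
  ∀ D, D ⊆ C → D.Infinite → ¬ cone t D ⊆ S

lemma rej_mono {S : Set InfSet} {t : Finset ℕ} {C D : Set ℕ} (h : D ⊆ C) (hr : rej S t C) :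
    rej S t D := fun E hE hi => hr E (hE.trans h) hi

lemma decide_dense (S : Set InfSet) (t : Finset ℕ) (C : Set ℕ) (hC : C.Infinite) :
    ∃ D, D ⊆ C ∧ D.Infinite ∧ (cone t D ⊆ S ∨ rej S t D) := by
  by_cases h : rej S t C
  · exact ⟨C, subset_rfl, hC, Or.inr h⟩
  · unfold rej at h
    push Not at h
    obtain ⟨D, h1, h2, h3⟩ := h
    exact ⟨D, h1, h2, Or.inl h3⟩

lemma acc_of (S : Set InfSet) (t : Finset ℕ) (D : Set ℕ)
    (h : ∀ c ∈ D, cone (insert c t) (D ∩ Set.Ioi c) ⊆ S) : cone t D ⊆ S := by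
  classical
  intro x hx
  have hne : ∃ c, c ∈ x.toSet \ (t : Set ℕ) := (Set.Infinite.sdiff x.2 t.finite_toSet).nonempty
  have h1 := Nat.find_spec hne
  have hcD : Nat.find hne ∈ D := (hx.2 h1.1).resolve_left h1.2
  refine h _ hcD ⟨?_, ?_⟩
  · rw [Finset.coe_insert]
    exact Set.insert_subset h1.1 hx.1
  · intro a ha
    by_cases hat : a ∈ (t : Set ℕ)
    · left; rw [Finset.coe_insert]; exact Or.inr hat
    · have h2 : Nat.find hne ≤ a := Nat.find_min' hne ⟨ha, hat⟩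
      rcases h2.eq_or_lt with h3 | h3
      · left; rw [Finset.coe_insert]; exact Or.inl h3.symm
      · right; exact ⟨(hx.2 ha).resolve_left hat, h3⟩

/-- `D` accepts `t`, or it rejects `t` and all one-point extensions of `t`. -/
def Qd (S : Set InfSet) (t : Finset ℕ) (D : Set ℕ) : Prop :=
  cone t D ⊆ S ∨ (rej S t D ∧ ∀ c ∈ D, rej S (insert c t) (D ∩ Set.Ioi c))

lemma Qd_mono {S : Set InfSet} {t : Finset ℕ} {C D : Set ℕ} (h : D ⊆ C) (hq : Qd S t C) :
    Qd S t D := by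
  rcases hq with hq | ⟨h1, h2⟩
  · exact Or.inl ((cone_mono h).trans hq)
  · exact Or.inr ⟨rej_mono h h1, fun c hc =>
      rej_mono (Set.inter_subset_inter_left _ h) (h2 c (h hc))⟩

lemma Qd_dense (S : Set InfSet) (t : Finset ℕ) (C : Set ℕ) (hC : C.Infinite) :
    ∃ D, D ⊆ C ∧ D.Infinite ∧ Qd S t D := by
  obtain ⟨C', hC1, hC2, h | h⟩ := decide_dense S t C hC
  · exact ⟨C', hC1, hC2, Or.inl h⟩
  obtain ⟨b, hb, hbA, hP⟩ := fusion (fun _ u D => cone u D ⊆ S ∨ rej S u D)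
    (fun _ u C D hD hq => hq.imp (fun h => (cone_mono hD).trans h) (rej_mono hD))
    (fun _ u C hC => decide_dense S u C hC) t C' hC2
  have hdec : ∀ j, cone (insert (b j) t) (b '' Set.Ici (j + 1)) ⊆ S ∨
      rej S (insert (b j) t) (b '' Set.Ici (j + 1)) := by
    intro j
    refine hP (j + 1) _ ?_
    rw [Finset.range_add_one, Finset.image_insert, Finset.union_insert]
    exact Finset.insert_subset_insert _ Finset.subset_union_left
  have hsub : ∀ (J : Set ℕ) (j : ℕ), b '' J ∩ Set.Ioi (b j) ⊆ b '' Set.Ici (j + 1) := by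
    rintro J j _ ⟨⟨i, _, rfl⟩, hi⟩
    exact ⟨i, hb.lt_iff_lt.mp hi, rfl⟩
  have hJA : ∀ J : Set ℕ, b '' J ⊆ C' := by
    rintro J _ ⟨i, _, rfl⟩; exact hbA i
  let J : Set ℕ := {j | rej S (insert (b j) t) (b '' Set.Ici (j + 1))}
  by_cases hJ : J.Infinite
  · refine ⟨b '' J, (hJA J).trans hC1, hJ.image hb.injective.injOn,
      Or.inr ⟨rej_mono (hJA J) h, ?_⟩⟩
    rintro _ ⟨j, hj, rfl⟩
    exact rej_mono (hsub J j) hj
  · exfalso
    have hJc : Jᶜ.Infinite := (Set.not_infinite.mp hJ).infinite_compl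
    refine h (b '' Jᶜ) (hJA _) (hJc.image hb.injective.injOn) (acc_of S t _ ?_)
    rintro _ ⟨j, hj, rfl⟩
    exact (cone_mono (hsub _ j)).trans ((hdec j).resolve_right hj)

/-- Completely Ramsey sets. -/
def CR (S : Set InfSet) : Prop :=
  ∀ (t : Finset ℕ) (C : Set ℕ), C.Infinite →
    ∃ D, D ⊆ C ∧ D.Infinite ∧ (cone t D ⊆ S ∨ cone t D ⊆ Sᶜ)

lemma CR_iUnion (T : ℕ → Set InfSet) (hT : ∀ n, CR (T n)) : CR (⋃ n, T n) := by
  intro t C hC
  obtain ⟨C', hC1, hC2, h | h⟩ := decide_dense (⋃ n, T n) t C hC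
  · exact ⟨C', hC1, hC2, Or.inl h⟩
  obtain ⟨b, hb, hbA, hP⟩ := fusion
    (fun n u D => Qd (⋃ n, T n) u D ∧ (cone u D ⊆ T n ∨ cone u D ⊆ (T n)ᶜ))
    (fun _ u C D hD hq => ⟨Qd_mono hD hq.1,
      hq.2.imp (fun h => (cone_mono hD).trans h) (fun h => (cone_mono hD).trans h)⟩)
    (fun n u C hC => by
      obtain ⟨D, h1, h2, h3⟩ := Qd_dense (⋃ n, T n) u C hC
      obtain ⟨E, h4, h5, h6⟩ := hT n u D h2
      exact ⟨E, h4.trans h1, h5, Qd_mono h4 h3, h6⟩) t C' hC2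
  have hJA : ∀ J : Set ℕ, b '' J ⊆ C' := by
    rintro J _ ⟨i, _, rfl⟩; exact hbA i
  have hrej : ∀ n u, t ⊆ u → u ⊆ t ∪ (Finset.range n).image b →
      rej (⋃ n, T n) u (b '' Set.Ici n) := by
    intro n
    induction n with
    | zero =>
      intro u h1 h2
      have : u = t := Finset.Subset.antisymm (by simpa using h2) h1
      rw [this]; exact rej_mono (hJA _) h
    | succ n ih =>
      intro u h1 h2
      rw [Finset.range_add_one, Finset.image_insert, Finset.union_insert] at h2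
      by_cases hc : b n ∈ u ∧ b n ∉ t
      · have h3 : t ⊆ u.erase (b n) := fun a ha =>
          Finset.mem_erase.mpr ⟨fun h => hc.2 (h ▸ ha), h1 ha⟩
        have h4 : u.erase (b n) ⊆ t ∪ (Finset.range n).image b :=
          Finset.subset_insert_iff.mp h2
        have h5 := ih _ h3 h4
        rcases (hP n _ h4).1 with h6 | h6
        · exact absurd h6 (h5 _ subset_rfl (inf_img hb n))
        · have h7 := h6.2 (b n) ⟨n, Set.self_mem_Ici, rfl⟩
          rw [Finset.insert_erase hc.1] at h7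
          refine rej_mono ?_ h7
          rintro _ ⟨j, hj, rfl⟩
          exact ⟨⟨j, Nat.le_of_succ_le hj, rfl⟩, hb hj⟩
      · refine rej_mono (Set.image_mono (Set.Ici_subset_Ici.mpr (Nat.le_succ n))) (ih u h1 ?_)
        intro a ha
        rcases Finset.mem_insert.mp (h2 ha) with rfl | h3
        · by_contra h4
          exact hc ⟨ha, fun h5 => h4 (Finset.mem_union_left _ h5)⟩
        · exact h3
  refine ⟨b '' Set.Ici 0, (hJA _).trans hC1, inf_img hb 0, Or.inr ?_⟩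
  intro x hx hxU
  obtain ⟨n, hn⟩ := Set.mem_iUnion.mp hxU
  let u : Finset ℕ := (t ∪ (Finset.range n).image b).filter (fun a => x.1 a = true)
  have h1 : t ⊆ u := fun a ha => Finset.mem_filter.mpr ⟨Finset.mem_union_left _ ha, hx.1 ha⟩
  have h2 : u ⊆ t ∪ (Finset.range n).image b := Finset.filter_subset _ _
  have h3 : x ∈ cone u (b '' Set.Ici n) := by
    refine ⟨fun a ha => (Finset.mem_filter.mp ha).2, fun a ha => ?_⟩
    rcases hx.2 ha with h4 | ⟨j, _, rfl⟩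
    · exact Or.inl (h1 h4)
    · by_cases hj : j < n
      · exact Or.inl (Finset.mem_filter.mpr ⟨Finset.mem_union_right _
          (Finset.mem_image_of_mem _ (Finset.mem_range.mpr hj)), ha⟩)
      · exact Or.inr ⟨j, not_lt.mp hj, rfl⟩
  rcases (hP n u h2).2 with h4 | h4
  · exact hrej n u h1 h2 _ subset_rfl (inf_img hb n) (h4.trans (Set.subset_iUnion T n))
  · exact h4 h3 hn

/-- The completely Ramsey sets form a sigma-algebra. -/
@[reducible] def CRs : MeasurableSpace InfSet where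
  MeasurableSet' := CR
  measurableSet_empty := fun _ C hC => ⟨C, subset_rfl, hC, Or.inr (by simp)⟩
  measurableSet_compl := fun S hS t C hC => by
    obtain ⟨D, h1, h2, h3⟩ := hS t C hC
    exact ⟨D, h1, h2, by rw [compl_compl]; exact h3.symm⟩
  measurableSet_iUnion := CR_iUnion

/-- The Galvin-Prikry theorem. -/
lemma borel_le : borel InfSet ≤ CRs := by
  have h1 : (Subtype.instMeasurableSpace : MeasurableSpace InfSet) = borel InfSet :=
    BorelSpace.measurable_eq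
  rw [← h1]
  have h2 : @Measurable InfSet (ℕ → Bool) CRs MeasurableSpace.pi Subtype.val := by
    let _ : MeasurableSpace InfSet := CRs
    refine measurable_pi_iff.mpr fun i => measurable_to_bool ?_
    intro t C hC
    refine ⟨C ∩ Set.Ioi i, Set.inter_subset_left, inf_tail hC i, ?_⟩
    by_cases hi : i ∈ t
    · exact Or.inl fun x hx => hx.1 hi
    · refine Or.inr fun x hx hx2 => ?_
      rcases hx.2 hx2 with h | h
      · exact hi h
      · exact lt_irrefl i h.2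
  exact h2.comap_le

lemma approx (f : InfSet → ℝ) (hf : @Measurable InfSet ℝ CRs _ f)
    (h01 : ∀ x, f x ∈ Set.Icc (0 : ℝ) 1) (n : ℕ) (t : Finset ℕ) (C : Set ℕ) (hC : C.Infinite) :
    ∃ D, D ⊆ C ∧ D.Infinite ∧ ∃ y ∈ Set.Icc (0 : ℝ) 1, ∀ x ∈ cone t D,
      |f x - y| ≤ 1 / ((n : ℝ) + 1) := by
  have hN : (0 : ℝ) < (n : ℝ) + 1 := by positivity
  have key : ∀ j : ℕ, j ≤ n + 1 → ∃ D, D ⊆ C ∧ D.Infinite ∧
      ((∃ y ∈ Set.Icc (0 : ℝ) 1, ∀ x ∈ cone t D, |f x - y| ≤ 1 / ((n : ℝ) + 1)) ∨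
        ∀ x ∈ cone t D, (j : ℝ) / ((n : ℝ) + 1) ≤ f x) := by
    intro j
    induction j with
    | zero => exact fun _ => ⟨C, subset_rfl, hC, Or.inr fun x _ => by simpa using (h01 x).1⟩
    | succ j ih =>
      intro hj
      obtain ⟨D, h1, h2, h3 | h3⟩ := ih (Nat.le_of_succ_le hj)
      · exact ⟨D, h1, h2, Or.inl h3⟩
      have hm : CR (f ⁻¹' Set.Iio (((j + 1 : ℕ) : ℝ) / ((n : ℝ) + 1))) := hf measurableSet_Iio
      obtain ⟨E, h4, h5, h6 | h6⟩ := hm t D h2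
      · refine ⟨E, h4.trans h1, h5, Or.inl ⟨(j : ℝ) / ((n : ℝ) + 1), ⟨by positivity, ?_⟩, ?_⟩⟩
        · rw [div_le_one hN]
          have : (j : ℝ) ≤ n := by exact_mod_cast (by omega : j ≤ n)
          linarith
        · intro x hx
          have h7 := h3 x (cone_mono h4 hx)
          have h8 : f x < ((j + 1 : ℕ) : ℝ) / ((n : ℝ) + 1) := h6 hx
          rw [Nat.cast_succ, add_div] at h8
          rw [abs_of_nonneg (by linarith)]
          linarith
      · exact ⟨E, h4.trans h1, h5, Or.inr fun x hx => not_lt.mp (h6 hx)⟩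
  obtain ⟨D, h1, h2, h3 | h3⟩ := key (n + 1) le_rfl
  · exact ⟨D, h1, h2, h3⟩
  · refine ⟨D, h1, h2, 1, ⟨zero_le_one, le_rfl⟩, fun x hx => ?_⟩
    have h4 := h3 x hx
    rw [Nat.cast_succ, div_self hN.ne'] at h4
    rw [le_antisymm (h01 x).2 h4]
    simp only [sub_self, abs_zero]
    positivity

/-- The elements of `x` below `n`. -/
def tr (x : InfSet) (n : ℕ) : Finset ℕ := (Finset.range n).filter (fun a => x.1 a = true)

lemma mem_tr {x : InfSet} {n a : ℕ} : a ∈ tr x n ↔ a < n ∧ a ∈ x.toSet := by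
  simp [tr, InfSet.toSet]

lemma abs_le_one' {a c : ℝ} (ha : a ∈ Set.Icc (0 : ℝ) 1) (hc : c ∈ Set.Icc (0 : ℝ) 1) :
    |a - c| ≤ 1 := abs_le.mpr ⟨by linarith [ha.1, hc.2], by linarith [ha.2, hc.1]⟩

/-- Canonical form of a sequence of Borel functions on a cone. -/
lemma canon (f : ℕ → InfSet → ℝ) (hf : ∀ n, @Measurable InfSet ℝ CRs _ (f n))
    (h01 : ∀ n x, f n x ∈ Set.Icc (0 : ℝ) 1) (s : Finset ℕ) (A : Set ℕ) (hA : A.Infinite)
    (hs : ∀ a ∈ s, ∀ b ∈ A, a < b) :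
    ∃ (b m : ℕ → ℕ) (c : Finset ℕ → ℝ), StrictMono b ∧ StrictMono m ∧ (∀ j, b j ∈ A) ∧
      (∀ u, c u ∈ Set.Icc (0 : ℝ) 1) ∧
      ∀ i, ∀ x ∈ cone s (Set.range b), |f (m i) x - c (tr x (b i))| ≤ 2 / ((i : ℝ) + 1) := by
  obtain ⟨b0, hb0, hbA, hP⟩ := fusion
    (fun n u D => ∃ y ∈ Set.Icc (0 : ℝ) 1, ∀ x ∈ cone u D, |f n x - y| ≤ 1 / ((n : ℝ) + 1))
    (fun _ u C D hD hq => by
      obtain ⟨y, h1, h2⟩ := hq
      exact ⟨y, h1, fun x hx => h2 x (cone_mono hD hx)⟩)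
    (fun n u C hC => approx (f n) (hf n) (h01 n) n u C hC) s A hA
  have hy : ∀ (n : ℕ) (u : Finset ℕ), ∃ y : Set.Icc (0 : ℝ) 1,
      u ⊆ s ∪ (Finset.range n).image b0 →
        ∀ x ∈ cone u (b0 '' Set.Ici n), |f n x - y| ≤ 1 / ((n : ℝ) + 1) := by
    intro n u
    by_cases h : u ⊆ s ∪ (Finset.range n).image b0
    · obtain ⟨y, h1, h2⟩ := hP n u h
      exact ⟨⟨y, h1⟩, fun _ => h2⟩
    · exact ⟨0, fun h' => absurd h' h⟩
  choose y hy using hy
  obtain ⟨c, φ, hφ, hc⟩ := CompactSpace.tendsto_subseq y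
  have hN : ∀ K p : ℕ, ∃ N, ∀ k ≥ N, ∀ u ∈ (Finset.range K).powerset,
      |(y (φ k) u : ℝ) - c u| ≤ 1 / ((p : ℝ) + 1) := by
    intro K p
    refine eventually_atTop.mp ((Filter.eventually_all_finset _).mpr fun u _ => ?_)
    have h1 : Tendsto (fun k => (y (φ k) u : ℝ)) atTop (𝓝 (c u : ℝ)) :=
      (continuous_subtype_val.tendsto _).comp (tendsto_pi_nhds.mp hc u)
    have h2 : (0 : ℝ) < 1 / ((p : ℝ) + 1) := by positivity
    filter_upwards [Metric.tendsto_nhds.mp h1 _ h2] with k hk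
    rw [Real.dist_eq] at hk
    exact hk.le
  choose N hN using hN
  let k : ℕ → ℕ := fun i => Nat.rec 0 (fun i v => max (v + 1) (N (b0 (φ v) + 1) (i + 1))) i
  have hk : ∀ i, k (i + 1) = max (k i + 1) (N (b0 (φ (k i)) + 1) (i + 1)) := fun i => rfl
  have hkm : StrictMono k := strictMono_nat_of_lt_succ fun i => by
    rw [hk]; exact lt_of_lt_of_le (Nat.lt_succ_self _) (le_max_left _ _)
  have hm : StrictMono (fun i => φ (k i)) := hφ.comp hkm
  have hb : StrictMono (fun i => b0 (φ (k i))) := hb0.comp hm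
  refine ⟨fun i => b0 (φ (k i)), fun i => φ (k i), fun u => c u, hb, hm, fun j => hbA _,
    fun u => (c u).2, fun i x hx => ?_⟩
  cases i with
  | zero =>
    have := abs_le_one' (h01 (φ (k 0)) x) (c (tr x (b0 (φ (k 0))))).2
    norm_num
    linarith
  | succ i =>
    have h1 : tr x (b0 (φ (k (i + 1)))) ⊆ s ∪ (Finset.range (φ (k (i + 1)))).image b0 := by
      intro a ha
      rw [mem_tr] at ha
      rcases hx.2 ha.2 with h | ⟨j, rfl⟩
      · exact Finset.mem_union_left _ h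
      · exact Finset.mem_union_right _
          (Finset.mem_image_of_mem _ (Finset.mem_range.mpr (hb0.lt_iff_lt.mp ha.1)))
    have h2 : x ∈ cone (tr x (b0 (φ (k (i + 1))))) (b0 '' Set.Ici (φ (k (i + 1)))) := by
      refine ⟨fun a ha => (mem_tr.mp ha).2, fun a ha => ?_⟩
      by_cases hlt : a < b0 (φ (k (i + 1)))
      · exact Or.inl (mem_tr.mpr ⟨hlt, ha⟩)
      · rcases hx.2 ha with h | ⟨j, rfl⟩
        · exact absurd (hs a h _ (hbA _)) hlt
        · exact Or.inr ⟨φ (k j), hb0.le_iff_le.mp (not_lt.mp hlt), rfl⟩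
    have h3 := hy _ _ h1 x h2
    have h4 : tr x (b0 (φ (k (i + 1)))) ∈ (Finset.range (b0 (φ (k i)) + 1)).powerset := by
      refine Finset.mem_powerset.mpr fun a ha => Finset.mem_range.mpr ?_
      rw [mem_tr] at ha
      rcases hx.2 ha.2 with h | ⟨j, rfl⟩
      · exact Nat.lt_succ_of_lt (hs a h _ (hbA _))
      · exact Nat.lt_succ_of_le (hb.monotone (Nat.le_of_lt_succ (hb.lt_iff_lt.mp ha.1)))
    have h5 := hN (b0 (φ (k i)) + 1) (i + 1) (k (i + 1)) (by rw [hk]; exact le_max_right _ _) _ h4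
    have h6 : (1 : ℝ) / ((φ (k (i + 1)) : ℝ) + 1) ≤ 1 / (((i + 1 : ℕ) : ℝ) + 1) := by
      apply one_div_le_one_div_of_le (by positivity)
      have : i + 1 ≤ φ (k (i + 1)) := hm.id_le (i + 1)
      have h7 : ((i + 1 : ℕ) : ℝ) ≤ (φ (k (i + 1)) : ℝ) := by exact_mod_cast this
      linarith
    have h7 : (2 : ℝ) / (((i + 1 : ℕ) : ℝ) + 1) =
        1 / (((i + 1 : ℕ) : ℝ) + 1) + 1 / (((i + 1 : ℕ) : ℝ) + 1) := by ring
    rw [h7]
    exact (abs_sub_le _ _ _).trans (add_le_add (h3.trans h6) h5)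

lemma window (w : ℕ → ℕ → ℝ) (hw : Regular w) : ∃ C : ℝ, 0 ≤ C ∧ ∀ a : ℕ, ∃ k I : ℕ, a ≤ k ∧
    ∀ (z : ℕ → ℝ) (c : ℝ), (∀ i, z i ∈ Set.Icc (0 : ℝ) 1) → c ∈ Set.Icc (0 : ℝ) 1 →
      (∀ i, a < i → i ≤ I → |z i - c| ≤ 2 / ((a : ℝ) + 1)) →
        |∑' i, w k i * z i - c| ≤ C / ((a : ℝ) + 1) := by
  obtain ⟨hs, ⟨C, hC⟩, h1, h0⟩ := hw
  have hC0 : 0 ≤ C := (tsum_nonneg fun i => abs_nonneg _).trans (hC 0)
  refine ⟨2 * C + 3, by positivity, fun a => ?_⟩
  have hη : (0 : ℝ) < 1 / ((a : ℝ) + 1) := by positivity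
  have e1 : Tendsto (fun k => ∑ i ∈ Finset.range (a + 1), |w k i|) atTop (𝓝 0) := by
    have := tendsto_finsetSum (Finset.range (a + 1)) (fun i _ => (h0 i).abs)
    simpa using this
  obtain ⟨k, ⟨hk1, hk2⟩, hk3⟩ := (((e1.eventually (gt_mem_nhds hη)).and
    (Metric.tendsto_nhds.mp h1 _ hη)).and (eventually_ge_atTop a)).exists
  obtain ⟨I, hI1, hI2⟩ := ((Metric.tendsto_nhds.mp (hs k).hasSum.tendsto_sum_nat _ hη).and
    (eventually_ge_atTop (a + 1))).exists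
  rw [Real.dist_eq] at hk2 hI1
  refine ⟨k, I, hk3, fun z c hz hc hzc => ?_⟩
  have hsw : Summable (w k) := (hs k).of_abs
  have hF : HasSum (fun i => if i ∈ Finset.Ico (a + 1) I then |w k i| else 0)
      (∑ i ∈ Finset.Ico (a + 1) I, |w k i|) := by
    have h := hasSum_sum_of_ne_finset_zero (L := SummationFilter.unconditional ℕ)
      (f := fun i => if i ∈ Finset.Ico (a + 1) I then |w k i| else 0)
      (s := Finset.Ico (a + 1) I) (fun i hi => if_neg hi)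
    rwa [Finset.sum_congr rfl (fun i hi => if_pos hi)] at h
  have hg := ((hs k).hasSum.mul_right (2 / ((a : ℝ) + 1))).add ((hs k).hasSum.sub hF)
  have hle : ∀ i, ‖w k i * (z i - c)‖ ≤ |w k i| * (2 / ((a : ℝ) + 1)) +
      (|w k i| - if i ∈ Finset.Ico (a + 1) I then |w k i| else 0) := by
    intro i
    rw [Real.norm_eq_abs, abs_mul]
    split_ifs with hi
    · rw [Finset.mem_Ico] at hi
      rw [sub_self, add_zero]
      exact mul_le_mul_of_nonneg_left (hzc i hi.1 hi.2.le) (abs_nonneg _)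
    · have h2 := mul_le_mul_of_nonneg_left (abs_le_one' (hz i) hc) (abs_nonneg (w k i))
      have h3 : 0 ≤ |w k i| * (2 / ((a : ℝ) + 1)) := by positivity
      linarith
  have hb := tsum_of_norm_bounded hg hle
  have hsum : Summable fun i => w k i * (z i - c) := Summable.of_norm_bounded hg.summable hle
  have hsplit : ∑' i, w k i * z i = ∑' i, w k i * (z i - c) + (∑' i, w k i) * c := by
    rw [← tsum_mul_right, ← hsum.tsum_add (hsw.mul_right c)]
    exact tsum_congr fun i => by ring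
  have hIco := Finset.sum_range_add_sum_Ico (fun i => |w k i|) hI2
  have h4 : (∑' i, |w k i|) * (2 / ((a : ℝ) + 1)) ≤ C * (2 / ((a : ℝ) + 1)) :=
    mul_le_mul_of_nonneg_right (hC k) (by positivity)
  have h5 : |(∑' i, w k i - 1) * c| ≤ 1 / ((a : ℝ) + 1) := by
    rw [abs_mul, abs_of_nonneg hc.1]
    have := mul_le_mul hk2.le hc.2 hc.1 hη.le
    linarith
  have h6 : ∑' i, w k i * z i - c = ∑' i, w k i * (z i - c) + (∑' i, w k i - 1) * c := by
    rw [hsplit]; ring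
  have h7 : (2 * C + 3) / ((a : ℝ) + 1) = C * (2 / ((a : ℝ) + 1)) + 3 * (1 / ((a : ℝ) + 1)) := by
    ring
  rw [Real.norm_eq_abs] at hb
  have h8 := abs_lt.mp hI1
  rw [h6, h7]
  refine (abs_add_le _ _).trans ?_
  linarith [h8.1]

lemma exists_sparse (g : ℕ → ℕ) (A : Set ℕ) (hA : A.Infinite) :
    ∃ B : Set ℕ, B ⊆ A ∧ B.Infinite ∧ ∀ b ∈ B, ∀ c ∈ B, b < c → g b ≤ c := by
  obtain ⟨b, hb, hbA, hP⟩ := fusion (fun _ u D => ∀ a ∈ u, ∀ c ∈ D, g a ≤ c)
    (fun _ u C D hD hq a ha c hc => hq a ha c (hD hc))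
    (fun _ u C hC => ⟨C ∩ Set.Ioi (u.sup g), Set.inter_subset_left, inf_tail hC _,
      fun a ha c hc => (Finset.le_sup ha).trans (le_of_lt hc.2)⟩) ∅ A hA
  refine ⟨Set.range b, ?_, Set.infinite_range_of_injective hb.injective, ?_⟩
  · rintro _ ⟨j, rfl⟩; exact hbA j
  · rintro _ ⟨i, rfl⟩ _ ⟨j, rfl⟩ hij
    refine hP j {b i} ?_ _ (Finset.mem_singleton_self _) _ ⟨j, Set.self_mem_Ici, rfl⟩
    simp only [Finset.empty_union, Finset.singleton_subset_iff]
    exact Finset.mem_image_of_mem _ (Finset.mem_range.mpr (hb.lt_iff_lt.mp hij))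

lemma tauber (z : ℕ → ℝ) (x : InfSet) (b : ℕ → ℕ)
    (hb : StrictMono b) (c : Finset ℕ → ℝ) (hc : ∀ u, c u ∈ Set.Icc (0 : ℝ) 1)
    (hzc : ∀ i, |z i - c (tr x (b i))| ≤ 2 / ((i : ℝ) + 1)) (T : ℕ → ℝ) (C : ℝ) (hC : 0 ≤ C)
    (kk II : ℕ → ℕ) (hk : ∀ a, a ≤ kk a)
    (hT : ∀ (a : ℕ) (c : ℝ), c ∈ Set.Icc (0 : ℝ) 1 →
      (∀ i, a < i → i ≤ II a → |z i - c| ≤ 2 / ((a : ℝ) + 1)) → |T (kk a) - c| ≤ C / ((a : ℝ) + 1))
    (M : ℕ) (hsp : ∀ a ∈ x.toSet, ∀ a' ∈ x.toSet, M ≤ a → a < a' → b (II a) ≤ a')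
    (l : ℝ) (hl : Tendsto T atTop (𝓝 l)) : Tendsto z atTop (𝓝 l) := by
  classical
  rw [Metric.tendsto_atTop] at hl ⊢
  intro ε hε
  obtain ⟨K, hK⟩ := hl (ε / 2) (by positivity)
  have e1 : Tendsto (fun a : ℕ => (C + 2) / ((a : ℝ) + 1)) atTop (𝓝 0) :=
    tendsto_const_nhds.div_atTop (tendsto_natCast_atTop_atTop.atTop_add tendsto_const_nhds)
  obtain ⟨K2, hK2⟩ := eventually_atTop.mp (e1.eventually (gt_mem_nhds (half_pos hε)))
  obtain ⟨a0, ha0, hlt⟩ := Set.Infinite.exists_gt x.2 (max M (max K K2))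
  have hM : M ≤ a0 := (le_max_left _ _).trans hlt.le
  have hKa : K ≤ a0 := ((le_max_left _ _).trans (le_max_right _ _)).trans hlt.le
  have hKb : K2 ≤ a0 := ((le_max_right _ _).trans (le_max_right _ _)).trans hlt.le
  refine ⟨a0 + 1, fun i hi => ?_⟩
  have hbi : a0 < b i := lt_of_lt_of_le hi (hb.id_le i)
  let a := Nat.findGreatest (fun a => a ∈ x.toSet) (b i - 1)
  have h1 : a0 ≤ a := Nat.le_findGreatest (by omega) ha0
  have h2 : a ∈ x.toSet := Nat.findGreatest_spec (P := fun a => a ∈ x.toSet) (m := a0)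
    (by omega) ha0
  have h3 : a ≤ b i - 1 := Nat.findGreatest_le _
  have h4 : tr x (b i) = tr x (a + 1) := by
    ext a'
    rw [mem_tr, mem_tr]
    refine ⟨fun h => ⟨Nat.lt_succ_of_le (Nat.le_findGreatest (by omega) h.2), h.2⟩,
      fun h => ⟨by omega, h.2⟩⟩
  have hmono : ∀ {p q : ℕ} {r : ℝ}, 0 ≤ r → p ≤ q → r / ((q : ℝ) + 1) ≤ r / ((p : ℝ) + 1) := by
    intro p q r hr hpq
    have : (p : ℝ) ≤ q := by exact_mod_cast hpq
    exact div_le_div_of_nonneg_left hr (by positivity) (by linarith)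
  have h5 : |T (kk a) - c (tr x (a + 1))| ≤ C / ((a : ℝ) + 1) := by
    refine hT a _ (hc _) fun j hj1 hj2 => ?_
    have h6 : tr x (b j) = tr x (a + 1) := by
      ext a'
      rw [mem_tr, mem_tr]
      have h7 : j ≤ b j := hb.id_le j
      refine ⟨fun h => ⟨?_, h.2⟩, fun h => ⟨by omega, h.2⟩⟩
      by_contra h8
      have h9 := hsp a h2 a' h.2 (hM.trans h1) (by omega)
      have h10 := hb.monotone hj2
      omega
    rw [← h6]
    exact (hzc j).trans (hmono (by norm_num) hj1.le)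
  have h6 := hzc i
  rw [h4] at h6
  have h7 := hK (kk a) ((hKa.trans h1).trans (hk a))
  have h8 := hK2 a0 hKb
  have h9 : (2 : ℝ) / ((i : ℝ) + 1) ≤ 2 / ((a0 : ℝ) + 1) := hmono (by norm_num) (by omega)
  have h10 : C / ((a : ℝ) + 1) ≤ C / ((a0 : ℝ) + 1) := hmono hC h1
  rw [add_div] at h8
  rw [Real.dist_eq] at h7 ⊢
  have h11 := abs_le.mp (h5.trans h10)
  have h12 := abs_le.mp (h6.trans h9)
  have h13 := abs_lt.mp h7
  exact abs_lt.mpr ⟨by linarith [h11.1, h11.2, h12.1, h12.2, h13.1, h13.2],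
    by linarith [h11.1, h11.2, h12.1, h12.2, h13.1, h13.2]⟩

theorem result (f : ℕ → InfSet → ℝ)
    (hf : ∀ n, @Measurable InfSet ℝ (borel InfSet) (borel ℝ) (f n))
    (h01 : ∀ n x, f n x ∈ Set.Icc (0 : ℝ) 1)
    (s : Finset ℕ) (A : Set ℕ) (hA : A.Infinite) (hs : ∀ a ∈ s, ∀ b ∈ A, a < b) :
    ∃ (B : Set ℕ) (m : ℕ → ℕ), B ⊆ A ∧ B.Infinite ∧ StrictMono m ∧
      ((∀ x ∈ ellentuck s B, ∃ l : ℝ, Tendsto (fun i => f (m i) x) atTop (𝓝 l)) ∨
        ∀ w : ℕ → ℕ → ℝ, Regular w → RamseyNull {x | x ∈ ellentuck s B ∧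
          ∃ l : ℝ, Tendsto (fun k => ∑' i, w k i * f (m i) x) atTop (𝓝 l)}) := by
  have hf' : ∀ n, @Measurable InfSet ℝ CRs _ (f n) := fun n =>
    Measurable.mono (hf n) borel_le (le_of_eq BorelSpace.measurable_eq)
  obtain ⟨b, m, c, hb, hm, hbA, hc, hcan⟩ := canon f hf' h01 s A hA hs
  have hG : CR {x | ∃ l : ℝ, Tendsto (fun i => f (m i) x) atTop (𝓝 l)} := by
    let _ : MeasurableSpace InfSet := CRs
    exact MeasureTheory.measurableSet_exists_tendsto (l := atTop) (f := fun i => f (m i))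
      (fun i => hf' (m i))
  obtain ⟨B, hB1, hB2, hB3⟩ := hG s (Set.range b) (Set.infinite_range_of_injective hb.injective)
  have hBA : B ⊆ A := hB1.trans (by rintro _ ⟨j, rfl⟩; exact hbA j)
  refine ⟨B, m, hBA, hB2, hm, hB3.imp (fun h x hx => h ⟨hx.1, hx.2.1⟩) fun h w hw => ?_⟩
  obtain ⟨C, hC, hwin⟩ := window w hw
  choose kk II hk hT using hwin
  intro s' A' hA' _
  obtain ⟨D, hD1, hD2, hD3⟩ := exists_sparse (fun a => b (II a)) A' hA'
  refine ⟨D, hD1, hD2, Set.eq_empty_of_forall_notMem fun x hx => ?_⟩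
  obtain ⟨hx1, hx2, l, hl⟩ := hx
  have hxc : x ∈ cone s B := ⟨hx2.1, hx2.2.1⟩
  refine h hxc ⟨l, tauber (fun i => f (m i) x) x b hb c hc
    (fun i => hcan i x (cone_mono hB1 hxc)) _ C hC kk II hk
    (fun a c' hc' h' => hT a _ c' (fun i => h01 _ x) hc' h') (s'.sup id + 1) ?_ l hl⟩
  intro a ha a' ha' hM hlt
  have hin : ∀ r ∈ x.toSet, s'.sup id + 1 ≤ r → r ∈ D := by
    intro r hr h1
    refine (hx1.2.1 hr).resolve_left fun h2 => ?_
    have h3 : id r ≤ s'.sup id := Finset.le_sup (f := id) h2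
    simp only [id] at h3
    omega
  exact hD3 a (hin a ha hM) a' (hin a' ha' (by omega)) hlt

end Pool.Agent.Results.MP_d594f7_lc.RamseyDichotomy
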